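import Pool.Agent.Lib.MP_28303a_al.TT.Rows
import Pool.Agent.Lib.MP_28303a_al.TT.Iface

/-! # Row FN2: the vanishing for two trees -/

set_option autoImplicit false
set_option linter.unusedSectionVars false
set_option linter.unusedVariables false

namespace Pool.Agent.NegK.TT.H98

open Pool.Agent.NegK.TW Matrix MonoidAlgebra

universe u

section reg

variable {Γ D X : Type u} [Group Γ] [MulAction Γ D] [MulAction Γ X]

theorem stab_pair (d : D) (x : X) : MulAction.stabilizer Γ ((d, x) : D × X) =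
    MulAction.stabilizer Γ d ⊓ MulAction.stabilizer Γ x := by
  ext g
  rw [Subgroup.mem_inf, MulAction.mem_stabilizer_iff, MulAction.mem_stabilizer_iff,
    MulAction.mem_stabilizer_iff]
  exact ⟨fun h => ⟨congrArg Prod.fst h, congrArg Prod.snd h⟩, fun h => Prod.ext h.1 h.2⟩

/-- The stabilizers of the degrees in the orbits. -/
theorem regCoh_pair (k : Type u) [Ring k] {J : Type} (dg : J → D)
    (h : ∀ (j : J) (x : X), RegCoh (MonoidAlgebra k
      (MulAction.stabilizer Γ (dg j) ⊓ MulAction.stabilizer Γ x : Subgroup Γ)))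
    (c : D × X) (hc : ∃ (j : J) (g : Γ), c.1 = g • dg j) :
    RegCoh (MonoidAlgebra k (MulAction.stabilizer Γ c)) := by
  obtain ⟨j, g, hg⟩ := hc
  have h1 : c = g • ((dg j, g⁻¹ • c.2) : D × X) := by
    refine Prod.ext hg ?_
    show c.2 = g • g⁻¹ • c.2
    rw [smul_inv_smul]
  have h2 : RegCoh (MonoidAlgebra k (MulAction.stabilizer Γ ((dg j, g⁻¹ • c.2) : D × X))) := by
    rw [stab_pair]
    exact h j _
  have h3 := (H89.rci.{u}).2 k Γ (D × X) _ g h2
  rwa [← h1] at h3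

end reg

section endo

variable {B : Type u} [Ring B] {J : Type} [Fintype J]

/-- The restriction of a matrix to a submodule. -/
noncomputable def rst (m : Matrix J J B) (Y : Submodule B (J → B)) (h : ∀ x ∈ Y, x ᵥ* m ∈ Y) :
    Y →ₗ[B] Y := m.vecMulLinear.restrict h

theorem rst_coe (m : Matrix J J B) (Y : Submodule B (J → B)) (h : ∀ x ∈ Y, x ᵥ* m ∈ Y) (x : Y) :
    (rst m Y h x : J → B) = (x : J → B) ᵥ* m := rfl

end endo

/-- Row FN2. -/
theorem fn2 (h1 : SplitStatement.{u}) (h2 : ZgStatement.{u}) : Fn2Statement.{u} := by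
  classical
  intro S hS k Γ D V E _ _ _ _ _ T b hb J _ _ dg μ d hμ hV hE
  obtain ⟨Λ, iΛ, dΛ, z, N, c, a, hz, hc, hzN, hN, ha⟩ :=
    (H69.fam.{u}) (LaurentPolynomial k) Γ D J dg μ d hμ
  obtain ⟨P⟩ := h1 (LaurentPolynomial k) Γ D V E T b hb J Λ dg μ d hμ z N c a hz hc hzN ha
  let _ : Fintype P.J0 := P.fJ0
  let _ : Fintype P.J1 := P.fJ1
  let _ : Fintype P.L0 := P.fL0
  let _ : Fintype P.L1 := P.fL1
  -- finite resolutions
  obtain ⟨n0, hn0⟩ := H19.coh'.{u} (LaurentPolynomial k) Γ (D × V) P.J0 P.L0 P.d0 P.Z0 P.c0 P.hom0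
    (fun l => regCoh_pair (LaurentPolynomial k) dg (fun j x => (hV j x).2) _ (P.orb0 l))
  obtain ⟨n1, hn1⟩ := H19.coh'.{u} (LaurentPolynomial k) Γ (D × E) P.J1 P.L1 P.d1 P.Z1 P.c1 P.hom1
    (fun l => regCoh_pair (LaurentPolynomial k) dg (fun j x => (hE j x).2) _ (P.orb1 l))
  have z0 := h2 S hS k Γ (D × V) n0 P.J0 P.d0 P.μ0 d (LinearMap.range P.Z0.vecMulLinear)
    (fun p x hx => P.gr0 x hx p) P.end0 P.chain0
    (fun i => regCoh_pair k dg (fun j x => (hV j x).1) _ (P.orbJ0 i)) hn0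
    (rst P.μ0 _ P.end0) (rst_coe P.μ0 _ P.end0)
  have z1 := h2 S hS k Γ (D × E) n1 P.J1 P.d1 P.μ1 d (LinearMap.range P.Z1.vecMulLinear)
    (fun p x hx => P.gr1 x hx p) P.end1 P.chain1
    (fun i => regCoh_pair k dg (fun j x => (hE j x).1) _ (P.orbJ1 i)) hn1
    (rst P.μ1 _ P.end1) (rst_coe P.μ1 _ P.end1)
  -- the maps
  let j' : LinearMap.range P.Z1.vecMulLinear →ₗ[LG k Γ] LinearMap.range P.Z0.vecMulLinear :=
    (P.Δ.vecMulLinear.domRestrict (LinearMap.range P.Z1.vecMulLinear)).codRestrict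
      (LinearMap.range P.Z0.vecMulLinear) (fun x => P.maps _ x.2)
  let q : LinearMap.range P.Z0.vecMulLinear →ₗ[LG k Γ] (J → LG k Γ) :=
    P.P.vecMulLinear.domRestrict (LinearMap.range P.Z0.vecMulLinear)
  have hj' : ∀ x, (j' x : P.J0 → LG k Γ) = (x : P.J1 → LG k Γ) ᵥ* P.Δ := fun _ => rfl
  have hq : ∀ x, q x = (x : P.J0 → LG k Γ) ᵥ* P.P := fun _ => rfl
  refine zmain (max n0 n1) j' q ?_ ?_ ?_ ?_ ?_ hμ.isNilpotent (zc_mono (le_max_right _ _) z1)
    (zc_mono (le_max_left _ _) z0)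
  · refine (injective_iff_map_eq_zero j').2 fun x hx => Subtype.ext ?_
    refine P.inj _ x.2 ?_
    rw [← hj', hx]
    rfl
  · intro x
    obtain ⟨y, hy, hy'⟩ := P.surj x
    exact ⟨⟨y, hy⟩, hy'⟩
  · intro y
    rw [hq]
    constructor
    · intro h
      obtain ⟨x, hx, hx'⟩ := P.exact _ y.2 h
      exact ⟨⟨x, hx⟩, Subtype.ext hx'⟩
    · rintro ⟨x, rfl⟩
      rw [hj', Matrix.vecMul_vecMul, P.comp, Matrix.vecMul_zero]
  · intro x
    refine Subtype.ext ?_
    rw [hj', rst_coe, rst_coe, hj']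
    exact P.comm1 _ x.2
  · intro x
    rw [hq, hq, rst_coe]
    exact P.comm0 _ x.2

end Pool.Agent.NegK.TT.H98
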